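import Mathlib
import Pool.Agent.Lib.MP_e29efe_nt.Alg
import Pool.Agent.Lib.MP_e29efe_nt.Side

set_option autoImplicit false

namespace Pool.Agent.Results.MP_e29efe_nt.ClassTwoFermat

open Pool.Agent.Lib.MP_e29efe_nt

theorem result (a b c : ℤ) (α β γ : ℂ) (h0 : α ≠ 0) (halg : IsAlgebraic ℚ α)
    (hβ : Polynomial.aeval β (minpoly ℚ α) = 0) (hγ : Polynomial.aeval γ (minpoly ℚ α) = 0)
    (hrel : α ^ a * β ^ b * γ ^ c = 1) (hroot : ∀ k : ℕ, 0 < k → α ^ k ≠ 1)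
    (hG : commutator (minpoly ℚ α).Gal ≤ Subgroup.center (minpoly ℚ α).Gal) :
    (|a| = |b| ∧ |b| = |c|) ∨ ∃ n : ℕ, 0 < n ∧ n ∣ Nat.card (minpoly ℚ α).Gal ∧
      (|a| ^ n + |b| ^ n = |c| ^ n ∨ |b| ^ n + |c| ^ n = |a| ^ n ∨
        |c| ^ n + |a| ^ n = |b| ^ n) := by
  obtain ⟨g, h, f, f0, hf⟩ := gal h0 halg hβ hγ hrel hroot
  obtain ⟨n, hn, hd, l, m, hl, hm, e⟩ := grp hG g h f f0 hf
  have key := three (A := (-a) ^ n) (B := b ^ n) (C := -(-c) ^ n) Nat.card_pos hl hm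
    (by push_cast; linear_combination e)
  simp only [abs_neg, abs_pow] at key
  rcases key with ⟨k1, k2⟩ | k
  · exact Or.inl ⟨(pow_left_inj₀ (abs_nonneg a) (abs_nonneg b) hn.ne').1 k1,
      (pow_left_inj₀ (abs_nonneg b) (abs_nonneg c) hn.ne').1 k2⟩
  · exact Or.inr ⟨n, hn, hd, k⟩

end Pool.Agent.Results.MP_e29efe_nt.ClassTwoFermat
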