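import Mathlib
import Pool.Agent.Lib.MP_e29efe_nt.Idx
import Pool.Agent.Lib.MP_e29efe_nt.Build

set_option autoImplicit false

namespace Pool.Agent.Results.MP_e29efe_nt.IndexTwoTriangles

open Pool.Agent.Lib.MP_e29efe_nt

theorem result (a b c : ℤ) :
    (∃ α β γ : ℂ, α ≠ 0 ∧ IsAlgebraic ℚ α ∧ Polynomial.aeval β (minpoly ℚ α) = 0 ∧
      Polynomial.aeval γ (minpoly ℚ α) = 0 ∧ α ^ a * β ^ b * γ ^ c = 1 ∧
      (∀ k : ℕ, 0 < k → α ^ k ≠ 1) ∧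
      ∃ A : Subgroup (minpoly ℚ α).Gal, A.index ≤ 2 ∧ ∀ x ∈ A, ∀ y ∈ A, x * y = y * x) ↔
    ∃ s : ℤ, |s| ≤ 2 ∧ (a ^ 2 + b ^ 2 + s * a * b = c ^ 2 ∨ b ^ 2 + c ^ 2 + s * b * c = a ^ 2 ∨
      c ^ 2 + a ^ 2 + s * c * a = b ^ 2) := by
  constructor
  · rintro ⟨α, β, γ, h0, halg, hβ, hγ, hrel, hroot, A, hA, hc⟩
    obtain ⟨g, h, f, f0, hf⟩ := gal h0 halg hβ hγ hrel hroot
    exact idx A hA hc g h f f0 hf
  · rintro ⟨s, hs, h | h | h⟩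
    · exact (build (F := ℚ) (Complex.conjAe.restrictScalars ℚ) (fun _ => rfl) irr_two hs h).1
    · exact (build (F := ℚ) (Complex.conjAe.restrictScalars ℚ) (fun _ => rfl) irr_two hs h).2.1
    · exact (build (F := ℚ) (Complex.conjAe.restrictScalars ℚ) (fun _ => rfl) irr_two hs h).2.2

end Pool.Agent.Results.MP_e29efe_nt.IndexTwoTriangles
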